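import Mathlib
import Pool.Agent.H.MP_718903_gt.A

open Set

namespace Pool.Agent.Results.MP_718903_gt.Examples

/-- d-separable -/
def DenseSigmaDiscrete (X : Type) [TopologicalSpace X] : Prop :=
  ∃ F : ℕ → Set X, (∀ n, DiscreteTopology (F n)) ∧ Dense (⋃ n, F n)

/-- D-separable -/
def SelectiveDiscrete (X : Type) [TopologicalSpace X] : Prop :=
  ∀ D : ℕ → Set X, (∀ n, Dense (D n)) →
    ∃ F : ℕ → Set X, (∀ n, F n ⊆ D n ∧ DiscreteTopology (F n)) ∧ Dense (⋃ n, F n)

theorem result :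
    (∃ (X : Type) (_ : TopologicalSpace X), T35Space X ∧ FirstCountableTopology X ∧
      SequentialSpace X ∧ DenseSigmaDiscrete X ∧ ¬ SelectiveDiscrete X) ∧
    (∃ (X : Type) (_ : TopologicalSpace X), Countable X ∧ T1Space X ∧
      SequentialSpace X ∧ DenseSigmaDiscrete X ∧ ¬ SelectiveDiscrete X) ∧
    ∀ (X : Type) [TopologicalSpace X] [T2Space X] [SequentialSpace X]
      [TopologicalSpace.SeparableSpace X], SelectiveDiscrete X := by
  refine ⟨?_, ?_, fun X _ _ _ _ D hD => ?_⟩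
  · obtain ⟨X, _, h1, h2, -, h3, D, h4, h5⟩ := Pool.Agent.H.MP_718903_gt.big
    refine ⟨X, inferInstance, h1, h2, inferInstance, h3, fun h => ?_⟩
    obtain ⟨F, f1, f2⟩ := h (fun _ => D) fun _ => h4
    exact h5 F f1 f2
  · obtain ⟨X, _, h1, h2, h3, h4, D, h5, h6⟩ := Pool.Agent.H.MP_718903_gt.small
    obtain ⟨e, he⟩ := exists_surjective_nat X
    refine ⟨X, inferInstance, h1, h3, h4, ⟨fun n => {e n}, fun _ => inferInstance,
      dense_univ.mono fun x _ => mem_iUnion.2 ((he x).imp fun _ h => h.symm)⟩, fun h => ?_⟩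
    obtain ⟨F, f1, f2⟩ := h D h5
    exact h6 F f1 f2
  · rcases isEmpty_or_nonempty X with h | h
    · exact ⟨fun _ => ∅, fun _ => ⟨empty_subset _, inferInstance⟩, fun x => h.elim x⟩
    obtain ⟨u, hu⟩ := TopologicalSpace.exists_dense_seq X
    choose F f1 f2 f3 using fun n => Pool.Agent.H.MP_718903_gt.gen (D n) (u n) (hD n _)
    refine ⟨F, fun n => ⟨f1 n, f2 n⟩, dense_closure.1 (hu.mono ?_)⟩
    rintro _ ⟨n, rfl⟩
    exact closure_mono (subset_iUnion F n) (f3 n)

end Pool.Agent.Results.MP_718903_gt.Examples
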